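import Pool.Agent.R278.UD.Final

/-!
# A strong Gurarii space that is not homogeneous for finite-dimensional subspaces
-/

namespace Pool.Agent.Results.MP_9991fb_an.StrongGurariiNotHomogeneous

open Pool.Agent.R278.UD

/-- Strong Gurarii spaces: isometric embeddings of subspaces of finite-dimensional spaces
extend. -/
def StrongGurarii (X : Type) [NormedAddCommGroup X] [NormedSpace ℝ X] : Prop :=
  ∀ (T : Type) [NormedAddCommGroup T] [NormedSpace ℝ T], FiniteDimensional ℝ T →
    ∀ (S : Submodule ℝ T) (f : S →ₗᵢ[ℝ] X), ∃ g : T →ₗᵢ[ℝ] X, ∀ s : S, g (s : T) = f s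

/-- Homogeneity for finite-dimensional spaces: bijective isometries between finite-dimensional
subspaces extend to surjective isometries. -/
def HomogeneousFD (X : Type) [NormedAddCommGroup X] [NormedSpace ℝ X] : Prop :=
  ∀ E F : Submodule ℝ X, FiniteDimensional ℝ E → FiniteDimensional ℝ F →
    ∀ h : E ≃ₗᵢ[ℝ] F, ∃ H : X ≃ₗᵢ[ℝ] X, ∀ x : E, H (x : X) = (h x : X)

/-- There is a strong Gurarii Banach space that is not homogeneous for finite-dimensional
spaces. -/
theorem result : ∃ (X : Type) (_ : NormedAddCommGroup X) (_ : NormedSpace ℝ X)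
    (_ : CompleteSpace X), StrongGurarii X ∧ ¬ HomogeneousFD X := by
  obtain ⟨X, i1, i2, i3, h1, x, y, hx, hy, h2⟩ := exists_space ℕ
  refine ⟨X, i1, i2, i3, ?_, ?_⟩
  · intro T _ _ hT S f
    have hS : FiniteDimensional ℝ S := inferInstance
    obtain ⟨dA, hdA⟩ := exists_denseRange_fd (I := ℕ) hS
    obtain ⟨dE, hdE⟩ := exists_denseRange_fd (I := ℕ) hT
    exact h1 S T S.subtypeₗᵢ f dA hdA dE hdE
  · intro hhom
    obtain ⟨h, hh⟩ := exists_line_iso hx hy
    obtain ⟨H, hH⟩ := hhom _ _ inferInstance inferInstance h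
    apply h2 H
    rw [← hh]
    exact hH ⟨x, Submodule.mem_span_singleton_self x⟩

end Pool.Agent.Results.MP_9991fb_an.StrongGurariiNotHomogeneous
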